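import Mathlib

set_option autoImplicit false

/-!
# MP_30a0a7_nt: the two primes at the end of the recursion, or a large summand

For `N ≥ 3`, `N ≠ 8`, either `g N + 1` and `2 * N - g N - 1` are both prime, or the summand
`1 - g N / (N - 1)` of the sum of the problem is greater than `1 / 5`.
-/

namespace Pool.Agent.Results.MP_30a0a7_nt.GoldbachPairs

open Finset

/-- The sequence of the problem: `a N 1 = N - 2` and
`a N n = a N (n - 1) - gcd (a N (n - 1), N - (-1) ^ n * (N - n))` for `n ≥ 2`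
(the value `a N 0` is irrelevant). -/
def a (N : ℕ) : ℕ → ℤ
  | 0 => (N : ℤ) - 2
  | 1 => (N : ℤ) - 2
  | (n + 2) => a N (n + 1) -
      (Int.gcd (a N (n + 1)) ((N : ℤ) - (-1) ^ (n + 2) * ((N : ℤ) - ((n + 2 : ℕ) : ℤ))) : ℤ)

/-- `g N` is the least index `n ≥ 2` with `a N n = 0`. -/
noncomputable def g (N : ℕ) : ℕ := sInf {n : ℕ | 2 ≤ n ∧ a N n = 0}

/-- `S n` is the sum of `1 - g k / (k - 1)` over `3 ≤ k ≤ n`. -/
noncomputable def S (n : ℕ) : ℝ := ∑ k ∈ Icc 3 n, (1 - (g k : ℝ) / ((k : ℝ) - 1))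

/-- the second argument of the gcd -/
def b (N n : ℕ) : ℤ := (N : ℤ) - (-1) ^ n * ((N : ℤ) - (n : ℤ))

theorem b_even {N n : ℕ} (h : Even n) : b N n = n := by
  unfold b
  rw [h.neg_one_pow]
  ring

theorem b_odd {N n : ℕ} (h : Odd n) : b N n = 2 * N - n := by
  unfold b
  rw [h.neg_one_pow]
  ring

theorem a_succ {N n : ℕ} (hn : 1 ≤ n) :
    a N (n + 1) = a N n - (Int.gcd (a N n) (b N (n + 1)) : ℤ) := by
  obtain ⟨m, rfl⟩ : ∃ m, n = m + 1 := ⟨n - 1, by omega⟩
  rfl

/-- from a nonnegative value the sequence reaches zero after at most that many steps -/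
theorem reach (N : ℕ) : ∀ A m : ℕ, 1 ≤ m → a N m = (A : ℤ) →
    ∃ j, m ≤ j ∧ a N j = 0 := by
  intro A
  induction A using Nat.strong_induction_on with
  | _ A ih =>
    intro m hm1 hm
    rcases Nat.eq_zero_or_pos A with h0 | hpos
    · subst h0
      exact ⟨m, le_refl _, by rw [hm]; rfl⟩
    · have h1 := a_succ (N := N) hm1
      have hne : a N m ≠ 0 := by rw [hm]; exact_mod_cast hpos.ne'
      have hGpos : 0 < Int.gcd (a N m) (b N (m + 1)) := Int.gcd_pos_of_ne_zero_left _ hne
      have hGle : Int.gcd (a N m) (b N (m + 1)) ≤ A := by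
        have h2 : (Int.gcd (a N m) (b N (m + 1)) : ℤ) ∣ a N m := Int.gcd_dvd_left _ _
        have h3 : (Int.gcd (a N m) (b N (m + 1)) : ℤ) ∣ (A : ℤ) := hm ▸ h2
        exact Nat.le_of_dvd hpos (by exact_mod_cast h3)
      have h2 : a N (m + 1) = ((A - Int.gcd (a N m) (b N (m + 1)) : ℕ) : ℤ) := by
        rw [Nat.cast_sub hGle, h1, hm]
      obtain ⟨j, hj1, hj3⟩ := ih _ (by omega) (m + 1) (by omega) h2
      exact ⟨j, by omega, hj3⟩

theorem a_one (N : ℕ) : a N 1 = (N : ℤ) - 2 := rfl

theorem g_spec {N : ℕ} (hN : 3 ≤ N) : 2 ≤ g N ∧ a N (g N) = 0 := by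
  have h1 : a N 1 = ((N - 2 : ℕ) : ℤ) := by
    rw [a_one]
    omega
  obtain ⟨j, hj1, hj3⟩ := reach N (N - 2) 1 le_rfl h1
  have hj : j ≠ 1 := by
    rintro rfl
    rw [a_one] at hj3
    omega
  exact Nat.sInf_mem (s := {n : ℕ | 2 ≤ n ∧ a N n = 0}) ⟨j, by omega, hj3⟩

theorem a_pos {N : ℕ} (hN : 3 ≤ N) : ∀ m, 1 ≤ m → m < g N → 0 < a N m := by
  intro m hm
  induction m, hm using Nat.le_induction with
  | base =>
    intro _
    rw [a_one]
    omega
  | succ m hm ih =>
    intro hmg
    have h1 := ih (by omega)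
    have h2 := a_succ (N := N) hm
    have h3 : (Int.gcd (a N m) (b N (m + 1)) : ℤ) ≤ a N m :=
      Int.le_of_dvd h1 (Int.gcd_dvd_left _ _)
    have h4 : a N (m + 1) ≠ 0 := by
      intro h0
      have : g N ≤ m + 1 := Nat.sInf_le ⟨by omega, h0⟩
      omega
    omega

/-- the shift after step `m` -/
def s (N m : ℕ) : ℤ := (N : ℤ) - m - 1 - a N m

theorem s_succ {N m : ℕ} (hm : 1 ≤ m) :
    s N (m + 1) = s N m + ((Int.gcd (a N m) (b N (m + 1)) : ℤ) - 1) := by
  unfold s
  rw [a_succ hm]
  push_cast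
  ring

theorem gcd_ge {N m : ℕ} (hN : 3 ≤ N) (hm : 1 ≤ m) (hmg : m < g N) :
    1 ≤ Int.gcd (a N m) (b N (m + 1)) :=
  Int.gcd_pos_of_ne_zero_left _ (a_pos hN m hm hmg).ne'

/-- no common factor at a step at which the shift does not change -/
theorem no_event {N k p : ℕ} (hk : 1 ≤ k) (h : s N (k + 1) = s N k) (hp : 1 < p)
    (h1 : (p : ℤ) ∣ a N k) (h2 : (p : ℤ) ∣ b N (k + 1)) : False := by
  have h3 := s_succ (N := N) hk
  have h4 : (Int.gcd (a N k) (b N (k + 1)) : ℤ) = 1 := by linarith
  have h5 : (p : ℤ) ∣ (Int.gcd (a N k) (b N (k + 1)) : ℤ) := Int.dvd_coe_gcd h1 h2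
  rw [h4] at h5
  have h6 : p ∣ 1 := by exact_mod_cast h5
  have h7 := Nat.le_of_dvd one_pos h6
  omega

/-- the time of the last change is at most `1 + 3 * shift` -/
theorem key {N : ℕ} (hN : 3 ≤ N) : ∀ m, 1 ≤ m → m ≤ g N → ∃ t : ℕ, 1 ≤ t ∧ t ≤ m ∧
    (t : ℤ) ≤ 1 + 3 * s N m ∧ ∀ n, t ≤ n → n ≤ m → s N n = s N m := by
  intro m hm
  induction m, hm using Nat.le_induction with
  | base =>
    intro _
    refine ⟨1, le_rfl, le_rfl, ?_, ?_⟩
    · unfold s
      rw [a_one]
      push_cast
      linarith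
    · intro n h1 h2
      have : n = 1 := by omega
      rw [this]
  | succ m hm ih =>
    intro hmg
    obtain ⟨t, ht1, htm, hts, hconst⟩ := ih (by omega)
    have hd1 := gcd_ge hN hm (by omega : m < g N)
    have hs := s_succ (N := N) hm
    set d := Int.gcd (a N m) (b N (m + 1)) with hd
    rcases Nat.eq_or_lt_of_le hd1 with h1 | h1
    · -- no event
      have hs' : s N (m + 1) = s N m := by
        rw [hs, ← h1]
        simp
      refine ⟨t, ht1, by omega, by rw [hs']; exact hts, ?_⟩
      intro n hn1 hn2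
      rcases Nat.eq_or_lt_of_le hn2 with h2 | h2
      · rw [h2]
      · rw [hconst n hn1 (by omega), hs']
    · -- an event
      refine ⟨m + 1, by omega, le_rfl, ?_, ?_⟩
      · have hpp : (d.minFac).Prime := Nat.minFac_prime (by omega)
        set p := d.minFac with hp
        have hpd : p ∣ d := Nat.minFac_dvd d
        have hpd' : (p : ℤ) ∣ (d : ℤ) := by exact_mod_cast hpd
        have hpa : (p : ℤ) ∣ a N m := hpd'.trans (Int.gcd_dvd_left _ _)
        have hpb : (p : ℤ) ∣ b N (m + 1) := hpd'.trans (Int.gcd_dvd_right _ _)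
        have hple : p ≤ d := Nat.le_of_dvd (by omega) hpd
        -- an even multiple `w` of `p`
        obtain ⟨w, hw0, hw1, hw2, hw3⟩ : ∃ w : ℕ, 0 < w ∧ Even w ∧ p ∣ w ∧ w ≤ 3 * (d - 1) := by
          rcases Nat.eq_or_lt_of_le hpp.two_le with h2 | h2
          · exact ⟨2, two_pos, even_two, by rw [← h2], by omega⟩
          · exact ⟨2 * p, by omega, even_two_mul p, dvd_mul_left p 2, by omega⟩
        have hbound : m + 1 ≤ t + w := by
          by_contra hcon
          push Not at hcon
          obtain ⟨k, hk⟩ : ∃ k, k = m - w := ⟨_, rfl⟩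
          have hkm : k + w = m := by omega
          have hk1 : s N k = s N m := hconst k (by omega) (by omega)
          have hk2 : s N (k + 1) = s N m := hconst (k + 1) (by omega) (by omega)
          have hak : a N k = a N m + w := by
            unfold s at hk1
            have : (k : ℤ) + w = m := by exact_mod_cast hkm
            linarith
          have hpw : (p : ℤ) ∣ (w : ℤ) := by exact_mod_cast hw2
          refine no_event (N := N) (k := k) (p := p) (by omega) (by rw [hk2, hk1]) hpp.one_lt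
            (by rw [hak]; exact dvd_add hpa hpw) ?_
          rcases Nat.even_or_odd (m + 1) with he | ho
          · have he' : Even (k + 1) := by
              rw [← hkm] at he
              have : Even (k + 1 + w) := by
                have e : k + w + 1 = k + 1 + w := by ring
                rwa [e] at he
              exact (Nat.even_add.1 this).2 hw1
            rw [b_even he']
            rw [b_even he] at hpb
            have e : ((k + 1 : ℕ) : ℤ) = ((m + 1 : ℕ) : ℤ) - w := by
              rw [← hkm]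
              push_cast
              ring
            rw [e]
            exact dvd_sub hpb hpw
          · have ho' : Odd (k + 1) := by
              rw [← hkm] at ho
              have : Odd (k + 1 + w) := by
                have e : k + w + 1 = k + 1 + w := by ring
                rwa [e] at ho
              exact (Nat.odd_add.1 this).2 hw1
            rw [b_odd ho']
            rw [b_odd ho] at hpb
            have e : 2 * (N : ℤ) - ((k + 1 : ℕ) : ℤ) = 2 * (N : ℤ) - ((m + 1 : ℕ) : ℤ) + w := by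
              rw [← hkm]
              push_cast
              ring
            rw [e]
            exact dvd_add hpb hpw
        have h5 : ((m + 1 : ℕ) : ℤ) ≤ t + w := by exact_mod_cast hbound
        have h6 : (w : ℤ) ≤ 3 * ((d : ℤ) - 1) := by
          have : ((d - 1 : ℕ) : ℤ) = (d : ℤ) - 1 := by
            rw [Nat.cast_sub (by omega)]
            simp
          rw [← this]
          exact_mod_cast hw3
        rw [hs]
        linarith
      · intro n hn1 hn2
        have : n = m + 1 := by omega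
        rw [this]

/-- if the final shift is at most `N / 5` then the two numbers are prime -/
theorem primes_of_small {N : ℕ} (hN : 140 ≤ N) (h : 5 * ((N : ℤ) - 1 - g N) ≤ N) :
    (g N + 1).Prime ∧ (2 * N - g N - 1).Prime := by
  have hN3 : 3 ≤ N := by omega
  obtain ⟨hg2, hg0⟩ := g_spec hN3
  obtain ⟨t, ht1, htg, hts, hconst⟩ := key hN3 (g N) (by omega) le_rfl
  have hsg : s N (g N) = (N : ℤ) - g N - 1 := by
    unfold s
    rw [hg0]
    ring
  rw [hsg] at hts
  set G := g N with hG
  have hNz : (140 : ℤ) ≤ N := by exact_mod_cast hN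
  -- the length of the last interval
  have hu : (N : ℤ) - 10 ≤ 5 * ((G : ℤ) - t) := by linarith
  have hak : ∀ k, t ≤ k → k ≤ G → a N k = (G : ℤ) - k := by
    intro k h1 h2
    have h3 := hconst k h1 h2
    rw [hsg] at h3
    unfold s at h3
    linarith
  have hstep : ∀ k, t ≤ k → k + 1 ≤ G → s N (k + 1) = s N k := by
    intro k h1 h2
    rw [hconst k h1 (by omega), hconst (k + 1) (by omega) h2]
  have hGN : (G : ℤ) + 1 ≤ N := by
    by_contra hcon
    push Not at hcon
    have : (t : ℤ) ≤ 1 + 3 * ((N : ℤ) - G - 1) := hts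
    have h1 : (1 : ℤ) ≤ t := by exact_mod_cast ht1
    linarith
  have hA : (G + 1).Prime := by
    by_contra hnp
    have hp : ((G + 1).minFac).Prime := Nat.minFac_prime (by omega)
    have hpd : (G + 1).minFac ∣ G + 1 := Nat.minFac_dvd _
    have hp2 : (G + 1).minFac ^ 2 ≤ G + 1 := Nat.minFac_sq_le_self (by omega) hnp
    have hpar : Even (G + 1 - (G + 1).minFac) := by
      rcases hp.eq_two_or_odd' with h2 | h2
      · rw [h2]
        rw [h2] at hpd
        have h3 : Even (G + 1) := even_iff_two_dvd.2 hpd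
        exact (Nat.even_sub (by omega)).2 ⟨fun _ => even_two, fun _ => h3⟩
      · have h3 : Odd (G + 1) := by
          by_contra h4
          rw [Nat.not_odd_iff_even] at h4
          have h5 : (G + 1).minFac = 2 := (Nat.minFac_eq_two_iff _).2 (even_iff_two_dvd.1 h4)
          rw [h5] at h2
          exact absurd h2 (by decide)
        exact Nat.Odd.sub_odd h3 h2
    set p := (G + 1).minFac with hpdef
    have hp2z : (p : ℤ) ^ 2 ≤ G + 1 := by exact_mod_cast hp2
    have hpt : (p : ℤ) ≤ (G : ℤ) - t := by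
      by_contra hcon
      push Not at hcon
      have h1 : (N : ℤ) - 10 < 5 * p := by linarith
      nlinarith
    have hpt' : p + t ≤ G := by
      have : (p : ℤ) + t ≤ G := by linarith
      exact_mod_cast this
    have hp1 := hp.two_le
    obtain ⟨k, hk⟩ : ∃ k, k = G - p := ⟨_, rfl⟩
    have hkG : k + p = G := by omega
    have hkGz : (k : ℤ) + p = G := by exact_mod_cast hkG
    refine no_event (N := N) (k := k) (p := p) (by omega) (hstep k (by omega) (by omega))
      hp.one_lt ?_ ?_
    · rw [hak k (by omega) (by omega)]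
      exact ⟨1, by linarith⟩
    · have e : k + 1 = G + 1 - p := by omega
      rw [e, b_even hpar]
      have h1 : p ∣ G + 1 - p := Nat.dvd_sub hpd (dvd_refl p)
      exact_mod_cast h1
  refine ⟨hA, ?_⟩
  by_contra hnp
  have hodd : Odd (G + 1) := hA.odd_of_ne_two (by omega)
  obtain ⟨B, hB⟩ : ∃ B, B = 2 * N - G - 1 := ⟨_, rfl⟩
  rw [← hB] at hnp
  have hGN' : G + 1 ≤ N := by exact_mod_cast hGN
  have hBz : (B : ℤ) = 2 * N - G - 1 := by omega
  have hq : (B.minFac).Prime := Nat.minFac_prime (by omega)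
  have hqd : B.minFac ∣ B := Nat.minFac_dvd _
  have hq2 : B.minFac ^ 2 ≤ B := Nat.minFac_sq_le_self (by omega) hnp
  set q := B.minFac with hqdef
  have hq2z : (q : ℤ) ^ 2 ≤ B := by exact_mod_cast hq2
  have hqt : 2 * (q : ℤ) ≤ (G : ℤ) - t := by
    by_contra hcon
    push Not at hcon
    have h1 : (N : ℤ) - 10 < 10 * q := by linarith
    have h2 : 5 * (B : ℤ) ≤ 6 * N := by linarith
    nlinarith
  have hqt' : 2 * q + t ≤ G := by
    have : 2 * (q : ℤ) + t ≤ G := by linarith
    exact_mod_cast this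
  have hq1 := hq.two_le
  obtain ⟨k, hk⟩ : ∃ k, k = G - 2 * q := ⟨_, rfl⟩
  have hkG : k + 2 * q = G := by omega
  have hkGz : (k : ℤ) + 2 * q = G := by exact_mod_cast hkG
  refine no_event (N := N) (k := k) (p := q) (by omega) (hstep k (by omega) (by omega))
    hq.one_lt ?_ ?_
  · rw [hak k (by omega) (by omega)]
    exact ⟨2, by linarith⟩
  · have hok : Odd (k + 1) := by
      have h1 : Odd (k + 1 + 2 * q) := by
        have e : k + 1 + 2 * q = G + 1 := by omega
        rw [e]
        exact hodd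
      exact (Nat.odd_add.1 h1).2 (even_two_mul q)
    rw [b_odd hok]
    have h1 : (q : ℤ) ∣ (B : ℤ) := by exact_mod_cast hqd
    have e : 2 * (N : ℤ) - ((k + 1 : ℕ) : ℤ) = B + 2 * q := by
      push_cast
      linarith
    rw [e]
    exact dvd_add h1 (dvd_mul_left _ _)

/-- the second argument of the gcd as a natural number -/
def bb (N n : ℕ) : ℕ := if n % 2 = 0 then n else 2 * N - n

/-- a computable copy of the recursion: the index at which the value `0` is reached -/
def run (N : ℕ) : ℕ → ℕ → ℕ → ℕ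
  | 0, m, _ => m
  | (f + 1), m, A => if A = 0 then m else run N f (m + 1) (A - Nat.gcd A (bb N (m + 1)))

theorem b_eq_bb {N n : ℕ} (h : n ≤ 2 * N) : b N n = ((bb N n : ℕ) : ℤ) := by
  unfold bb
  rcases Nat.even_or_odd n with he | ho
  · rw [b_even he, if_pos (Nat.even_iff.1 he)]
  · rw [b_odd ho, if_neg (by rw [Nat.odd_iff.1 ho]; decide), Nat.cast_sub h]
    push_cast
    ring

theorem run_eq {N : ℕ} (hN : 3 ≤ N) : ∀ f m A : ℕ, 1 ≤ m → m ≤ g N → a N m = (A : ℤ) → A ≤ f →
    m + A + 1 ≤ N → run N f m A = g N := by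
  have hz : ∀ m : ℕ, 1 ≤ m → m ≤ g N → a N m = 0 → m = g N := by
    intro m hm hmg h0
    have h1 : m ≠ 1 := by
      rintro rfl
      rw [a_one] at h0
      omega
    exact le_antisymm hmg (Nat.sInf_le ⟨by omega, h0⟩)
  intro f
  induction f with
  | zero =>
    intro m A hm hmg ha hA _
    have hA0 : A = 0 := by omega
    subst hA0
    exact hz m hm hmg (by rw [ha]; rfl)
  | succ f ih =>
    intro m A hm hmg ha hA hmA
    unfold run
    by_cases hA0 : A = 0
    · rw [if_pos hA0]
      subst hA0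
      exact hz m hm hmg (by rw [ha]; rfl)
    · rw [if_neg hA0]
      have hne : m ≠ g N := by
        intro h0
        have h1 := (g_spec hN).2
        rw [← h0, ha] at h1
        exact hA0 (by exact_mod_cast h1)
      have hb := b_eq_bb (N := N) (n := m + 1) (by omega)
      have h1 := a_succ (N := N) hm
      rw [ha, hb, Int.gcd_natCast_natCast] at h1
      have hd : Nat.gcd A (bb N (m + 1)) ≤ A := Nat.gcd_le_left _ (by omega)
      have hd1 : 0 < Nat.gcd A (bb N (m + 1)) := Nat.gcd_pos_of_pos_left _ (by omega)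
      refine ih (m + 1) _ (by omega) (by omega) ?_ (by omega) (by omega)
      rw [h1, Nat.cast_sub hd]

theorem run_eq_g {N : ℕ} (hN : 3 ≤ N) : run N N 1 (N - 2) = g N := by
  refine run_eq hN N 1 (N - 2) le_rfl (by have := (g_spec hN).1; omega) ?_ (by omega) (by omega)
  rw [a_one]
  omega

theorem table : ∀ N ∈ Icc 3 139, N ≠ 8 → ((run N N 1 (N - 2) + 1).Prime ∧
    (2 * N - run N N 1 (N - 2) - 1).Prime) ∨ N - 1 < 5 * (N - 1 - run N N 1 (N - 2)) := by
  decide +kernel

theorem dichotomy (N : ℕ) (hN : 3 ≤ N) (h8 : N ≠ 8) :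
    ((g N + 1).Prime ∧ (2 * N - g N - 1).Prime) ∨
      1 / 5 < 1 - (g N : ℝ) / ((N : ℝ) - 1) := by
  have hNr : (3 : ℝ) ≤ N := by exact_mod_cast hN
  have h2 : (0 : ℝ) < (N : ℝ) - 1 := by linarith
  have hfin : (N : ℝ) - 1 < 5 * ((N : ℝ) - 1 - g N) → 1 / 5 < 1 - (g N : ℝ) / ((N : ℝ) - 1) := by
    intro h1
    rw [lt_sub_iff_add_lt, ← lt_sub_iff_add_lt', div_lt_iff₀ h2]
    linarith
  rcases Nat.lt_or_ge N 140 with hlt | hge
  · have h := table N (mem_Icc.2 ⟨hN, by omega⟩) h8
    rw [run_eq_g hN] at h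
    rcases h with h | h
    · exact Or.inl h
    · right
      apply hfin
      have h3 : g N ≤ N - 1 := by omega
      have h4 : ((N - 1 - g N : ℕ) : ℝ) = (N : ℝ) - 1 - g N := by
        rw [Nat.cast_sub h3, Nat.cast_sub (by omega)]
        simp
      have h5 : ((N - 1 : ℕ) : ℝ) = (N : ℝ) - 1 := by
        rw [Nat.cast_sub (by omega)]
        simp
      rw [← h4, ← h5]
      exact_mod_cast h
  · by_cases h : 5 * ((N : ℤ) - 1 - g N) ≤ N
    · exact Or.inl (primes_of_small hge h)
    · right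
      apply hfin
      push Not at h
      have h1 : (N : ℝ) < 5 * ((N : ℝ) - 1 - g N) := by exact_mod_cast h
      linarith

/-- `g N ≤ N - 1`, so the summands of `S` are not negative -/
theorem term_nonneg {N : ℕ} (hN : 3 ≤ N) : 0 ≤ 1 - (g N : ℝ) / ((N : ℝ) - 1) := by
  obtain ⟨hg2, hg0⟩ := g_spec hN
  obtain ⟨t, ht1, _, hts, _⟩ := key hN (g N) (by omega) le_rfl
  have hsg : s N (g N) = (N : ℤ) - g N - 1 := by
    unfold s
    rw [hg0]
    ring
  rw [hsg] at hts
  have h1 : (1 : ℤ) ≤ t := by exact_mod_cast ht1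
  have h2 : (g N : ℤ) + 1 ≤ N := by linarith
  have h3 : (g N : ℝ) + 1 ≤ N := by exact_mod_cast h2
  have h4 : (3 : ℝ) ≤ N := by exact_mod_cast hN
  rw [sub_nonneg, div_le_one (by linarith)]
  linarith

/-- the number of the `N ≤ n` without two primes is at most `5 S(n) + 1` -/
theorem count (n : ℕ) : (((Icc 3 n).filter (fun N =>
    ¬ ((g N + 1).Prime ∧ (2 * N - g N - 1).Prime))).card : ℝ) ≤ 5 * S n + 1 := by
  have h1 : (((Icc 3 n).filter (fun N =>
      ¬ ((g N + 1).Prime ∧ (2 * N - g N - 1).Prime))).card : ℝ) =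
      ∑ N ∈ Icc 3 n, (if ¬ ((g N + 1).Prime ∧ (2 * N - g N - 1).Prime) then (1 : ℝ) else 0) := by
    rw [← sum_filter, sum_const, nsmul_eq_mul, mul_one]
  have h2 : 5 * S n + ∑ N ∈ Icc 3 n, (if N = 8 then (1 : ℝ) else 0) =
      ∑ N ∈ Icc 3 n, (5 * (1 - (g N : ℝ) / ((N : ℝ) - 1)) + (if N = 8 then (1 : ℝ) else 0)) := by
    unfold S
    rw [sum_add_distrib, mul_sum]
  have h3 : ∑ N ∈ Icc 3 n, (if N = 8 then (1 : ℝ) else 0) ≤ 1 := by
    rw [sum_ite_eq' (Icc 3 n) 8 (fun _ => (1 : ℝ))]
    split_ifs <;> norm_num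
  have h4 : ∑ N ∈ Icc 3 n, (if ¬ ((g N + 1).Prime ∧ (2 * N - g N - 1).Prime) then (1 : ℝ) else 0) ≤
      ∑ N ∈ Icc 3 n, (5 * (1 - (g N : ℝ) / ((N : ℝ) - 1)) + (if N = 8 then (1 : ℝ) else 0)) := by
    refine sum_le_sum fun N hN => ?_
    have hN3 := (mem_Icc.1 hN).1
    have h5 := term_nonneg hN3
    have h6 : (0 : ℝ) ≤ if N = 8 then (1 : ℝ) else 0 := by split_ifs <;> norm_num
    by_cases h : (g N + 1).Prime ∧ (2 * N - g N - 1).Prime
    · rw [if_neg (not_not.2 h)]
      linarith
    · rw [if_pos h]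
      by_cases h8 : N = 8
      · rw [if_pos h8]
        linarith
      · have h7 := (dichotomy N hN3 h8).resolve_left h
        linarith
  rw [h1]
  linarith

/-- For all `N ≥ 3`, `N ≠ 8`: two primes, or the summand of `S` for `N` is greater than `1 / 5`. -/
theorem result (N : ℕ) (hN : 3 ≤ N) (h8 : N ≠ 8) :
    ((g N + 1).Prime ∧ (2 * N - g N - 1).Prime) ∨
      1 / 5 < 1 - (g N : ℝ) / ((N : ℝ) - 1) :=
  dichotomy N hN h8

end Pool.Agent.Results.MP_30a0a7_nt.GoldbachPairs
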