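import Mathlib

set_option autoImplicit false

namespace Pool.Agent.Results.MP_30a0a7_nt.LowerBound

open Finset

/-- The sequence of the problem: `a N 1 = N - 2` and
`a N n = a N (n - 1) - gcd (a N (n - 1), N - (-1) ^ n * (N - n))` for `n ≥ 2`
(the value `a N 0` is irrelevant). -/
def a (N : ℕ) : ℕ → ℤ
  | 0 => (N : ℤ) - 2
  | 1 => (N : ℤ) - 2
  | (n + 2) => a N (n + 1) -
      (Int.gcd (a N (n + 1)) ((N : ℤ) - (-1) ^ (n + 2) * ((N : ℤ) - ((n + 2 : ℕ) : ℤ))) : ℤ)

/-- `g N` is the least index `n ≥ 2` with `a N n = 0`. -/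
noncomputable def g (N : ℕ) : ℕ := sInf {n : ℕ | 2 ≤ n ∧ a N n = 0}

/-- `S n` is the sum of `1 - g k / (k - 1)` over `3 ≤ k ≤ n`. -/
noncomputable def S (n : ℕ) : ℝ := ∑ k ∈ Icc 3 n, (1 - (g k : ℝ) / ((k : ℝ) - 1))

theorem a_step (N n : ℕ) : a N (n + 2) = a N (n + 1) -
    (Int.gcd (a N (n + 1)) ((N : ℤ) - (-1) ^ (n + 2) * ((N : ℤ) - ((n + 2 : ℕ) : ℤ))) : ℤ) := rfl

/-- from a nonnegative value the sequence reaches zero after at most that many steps -/
theorem reach (N : ℕ) : ∀ A m : ℕ, a N (m + 1) = (A : ℤ) →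
    ∃ j, m + 1 ≤ j ∧ j ≤ m + 1 + A ∧ a N j = 0 := by
  intro A
  induction A using Nat.strong_induction_on with
  | _ A ih =>
    intro m hm
    rcases Nat.eq_zero_or_pos A with h0 | hpos
    · subst h0
      exact ⟨m + 1, le_refl _, le_refl _, by rw [hm]; rfl⟩
    · set G := Int.gcd (a N (m + 1)) ((N : ℤ) - (-1) ^ (m + 2) * ((N : ℤ) - ((m + 2 : ℕ) : ℤ)))
        with hG
      have h1 : a N (m + 2) = a N (m + 1) - (G : ℤ) := a_step N m
      have hne : a N (m + 1) ≠ 0 := by rw [hm]; exact_mod_cast hpos.ne'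
      have hGpos : 0 < G := Int.gcd_pos_of_ne_zero_left _ hne
      have hGle : G ≤ A := by
        have : (G : ℤ) ∣ a N (m + 1) := Int.gcd_dvd_left _ _
        rw [hm] at this
        exact Nat.le_of_dvd hpos (by exact_mod_cast this)
      have h2 : a N (m + 1 + 1) = ((A - G : ℕ) : ℤ) := by
        show a N (m + 2) = _
        rw [h1, hm, Nat.cast_sub hGle]
      obtain ⟨j, hj1, hj2, hj3⟩ := ih (A - G) (by omega) (m + 1) h2
      exact ⟨j, by omega, by omega, hj3⟩

theorem g_le {N j : ℕ} (h2 : 2 ≤ j) (h : a N j = 0) : g N ≤ j := Nat.sInf_le ⟨h2, h⟩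

/-- `g N ≤ N - 1` -/
theorem g_le_pred {N : ℕ} (hN : 3 ≤ N) : g N + 1 ≤ N := by
  have h1 : a N (0 + 1) = ((N - 2 : ℕ) : ℤ) := by
    show (N : ℤ) - 2 = _
    omega
  obtain ⟨j, hj1, hj2, hj3⟩ := reach N (N - 2) 0 h1
  have hj : j ≠ 1 := by
    rintro rfl
    rw [show (1 : ℕ) = 0 + 1 from rfl, h1] at hj3
    omega
  have := g_le (N := N) (j := j) (by omega) hj3
  omega

/-- the greatest common divisor at index `m` when the sequence has the value `N - m` -/
theorem gcd_val {N m : ℕ} (hm : m ≤ N) :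
    Int.gcd ((N : ℤ) - m) ((N : ℤ) - (-1) ^ m * ((N : ℤ) - m)) = Nat.gcd N m := by
  rcases Nat.even_or_odd m with h | h
  · rw [h.neg_one_pow, one_mul, sub_sub_cancel, ← Nat.cast_sub hm, Int.gcd_natCast_natCast]
    rw [Nat.gcd_comm, Nat.gcd_sub_self_right hm, Nat.gcd_comm]
  · rw [h.neg_one_pow]
    have h1 : (N : ℤ) - -1 * ((N : ℤ) - m) = ((N - m + N : ℕ) : ℤ) := by
      push_cast [Nat.cast_sub hm]; ring
    rw [h1, ← Nat.cast_sub hm, Int.gcd_natCast_natCast, Nat.gcd_self_add_right,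
      Nat.gcd_comm, Nat.gcd_self_sub_right hm]

theorem a_val {N p : ℕ} (hpN : p ≤ N) (hco : ∀ m, 2 ≤ m → m < p → Nat.gcd N m = 1) :
    ∀ m, m + 1 < p → a N (m + 1) = (N : ℤ) - (m + 2 : ℕ) := by
  intro m
  induction m with
  | zero => intro _; rfl
  | succ m ih =>
    intro hm
    have h1 := ih (by omega)
    show a N (m + 2) = _
    rw [a_step, h1, gcd_val (m := m + 2) (by omega), hco (m + 2) (by omega) (by omega)]
    push_cast
    ring

/-- if `p` divides `N`, `2 * p ≤ N` and `N` is prime to all `m` with `2 ≤ m < p`, then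
`g N ≤ N - p` -/
theorem g_le_sub {N p : ℕ} (h2 : 2 ≤ p) (hpN : 2 * p ≤ N) (hdvd : p ∣ N)
    (hco : ∀ m, 2 ≤ m → m < p → Nat.gcd N m = 1) : g N + p ≤ N := by
  have h1 : a N (p - 1) = (N : ℤ) - (p : ℕ) := by
    obtain ⟨m, rfl⟩ : ∃ m, p = m + 2 := ⟨p - 2, by omega⟩
    have := a_val (N := N) (p := m + 2) (by omega) hco m (by omega)
    simpa using this
  have h3 : a N (p - 1 + 1) = ((N - 2 * p : ℕ) : ℤ) := by
    obtain ⟨m, rfl⟩ : ∃ m, p = m + 2 := ⟨p - 2, by omega⟩
    show a N (m + 2) = _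
    have h4 : a N (m + 1) = (N : ℤ) - ((m + 2 : ℕ) : ℤ) := h1
    rw [a_step, h4, gcd_val (m := m + 2) (by omega), Nat.gcd_eq_right hdvd, Nat.cast_sub hpN]
    push_cast
    ring
  obtain ⟨j, hj1, hj2, hj3⟩ := reach N (N - 2 * p) (p - 1) h3
  have := g_le (N := N) (j := j) (by omega) hj3
  omega

/-- for composite `N` with least prime factor `p` one has `g N ≤ N - p` -/
theorem g_le_minFac {N : ℕ} (hN : 3 ≤ N) (hc : ¬ N.Prime) : g N + N.minFac ≤ N := by
  have h1 : N.minFac ^ 2 ≤ N := Nat.minFac_sq_le_self (by omega) hc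
  have hp : N.minFac.Prime := Nat.minFac_prime (by omega)
  have h2 := hp.two_le
  refine g_le_sub h2 (by nlinarith) (Nat.minFac_dvd N) ?_
  intro m hm2 hm
  by_contra hne
  obtain ⟨q, hq, hqd⟩ := Nat.exists_prime_and_dvd hne
  have h3 : q ≤ m := Nat.le_of_dvd (by omega) (hqd.trans (Nat.gcd_dvd_right _ _))
  have h4 := Nat.minFac_le_of_dvd hq.two_le (hqd.trans (Nat.gcd_dvd_left _ _))
  omega

theorem term_nonneg {k : ℕ} (hk : 3 ≤ k) : 0 ≤ 1 - (g k : ℝ) / ((k : ℝ) - 1) := by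
  have h1 := g_le_pred hk
  have h2 : (g k : ℝ) + 1 ≤ k := by exact_mod_cast h1
  have h3 : (3 : ℝ) ≤ k := by exact_mod_cast hk
  rw [sub_nonneg, div_le_one (by linarith)]
  linarith

theorem term_ge {k : ℕ} (hk : 3 ≤ k) (hc : ¬ k.Prime) :
    ((k.minFac : ℝ) - 1) / k ≤ 1 - (g k : ℝ) / ((k : ℝ) - 1) := by
  have h1 : (g k : ℝ) + k.minFac ≤ k := by exact_mod_cast g_le_minFac hk hc
  have h3 : (3 : ℝ) ≤ k := by exact_mod_cast hk
  have h4 : (1 : ℝ) ≤ k.minFac := by exact_mod_cast Nat.minFac_pos k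
  have h5 : ((k.minFac : ℝ) - 1) / k ≤ ((k.minFac : ℝ) - 1) / ((k : ℝ) - 1) :=
    div_le_div_of_nonneg_left (by linarith) (by linarith) (by linarith)
  refine h5.trans ?_
  rw [le_sub_iff_add_le, ← add_div, div_le_one (by linarith)]
  linarith

/-- the contribution of the products of two different primes up to `y`, `y ^ 2 ≤ n` -/
theorem S_ge_primes {n y : ℕ} (hy : y ^ 2 ≤ n) (hy0 : 0 < y) :
    ((Nat.primeCounting y).choose 2 : ℝ) / (2 * y) ≤ S n := by
  classical
  set P : Finset ℕ := (range (y + 1)).filter Nat.Prime with hP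
  have hcard : P.card = Nat.primeCounting y := by
    rw [Nat.primeCounting, Nat.primeCounting', Nat.count_eq_card_filter_range]
  have hPp : ∀ p ∈ P, p.Prime := fun p hp => (mem_filter.mp hp).2
  have hPy : ∀ p ∈ P, p ≤ y := fun p hp => by
    have := mem_range.mp (mem_filter.mp hp).1; omega
  have hinj : Set.InjOn (fun s : Finset ℕ => ∏ p ∈ s, p) (P.powersetCard 2 : Set (Finset ℕ)) := by
    intro s hs t ht hst
    have hs' := (mem_powersetCard.mp (mem_coe.mp hs)).1
    have ht' := (mem_powersetCard.mp (mem_coe.mp ht)).1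
    have h1 := Nat.primeFactors_prod (fun p hp => hPp p (hs' hp))
    have h2 := Nat.primeFactors_prod (fun p hp => hPp p (ht' hp))
    rw [← h1, ← h2]
    exact congrArg _ hst
  have hform : ∀ s ∈ P.powersetCard 2, ∃ p q : ℕ, p.Prime ∧ q.Prime ∧ p < q ∧ q ≤ y ∧
      ∏ x ∈ s, x = p * q := by
    intro s hs
    obtain ⟨hsub, hc⟩ := mem_powersetCard.mp hs
    obtain ⟨u, v, huv, rfl⟩ := card_eq_two.mp hc
    have hu := hsub (mem_insert_self u {v})
    have hv := hsub (mem_insert_of_mem (mem_singleton_self v))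
    rcases lt_or_gt_of_ne huv with h | h
    · exact ⟨u, v, hPp u hu, hPp v hv, h, hPy v hv, prod_pair huv⟩
    · exact ⟨v, u, hPp v hv, hPp u hu, h, hPy u hu, by rw [prod_pair huv, mul_comm]⟩
  have hsubset : (P.powersetCard 2).image (fun s : Finset ℕ => ∏ p ∈ s, p) ⊆ Icc 3 n := by
    intro k hk
    obtain ⟨s, hs, rfl⟩ := mem_image.mp hk
    obtain ⟨p, q, hp, hq, hpq, hqy, he⟩ := hform s hs
    rw [mem_Icc, he]
    have h2 := hp.two_le
    constructor
    · nlinarith
    · calc p * q ≤ y * y := Nat.mul_le_mul (by omega) hqy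
        _ = y ^ 2 := by ring
        _ ≤ n := hy
  unfold S
  calc ((Nat.primeCounting y).choose 2 : ℝ) / (2 * y)
      = ∑ s ∈ P.powersetCard 2, (1 / (2 * (y : ℝ))) := by
        rw [sum_const, card_powersetCard, hcard, nsmul_eq_mul]; ring
    _ ≤ ∑ s ∈ P.powersetCard 2, (1 - (g (∏ p ∈ s, p) : ℝ) / (((∏ p ∈ s, p : ℕ) : ℝ) - 1)) := by
        refine sum_le_sum fun s hs => ?_
        obtain ⟨p, q, hp, hq, hpq, hqy, he⟩ := hform s hs
        rw [he]
        have h2 := hp.two_le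
        have hmf : (p * q).minFac = p := by
          refine le_antisymm (Nat.minFac_le_of_dvd h2 (dvd_mul_right p q)) ?_
          have hm : (p * q).minFac.Prime := Nat.minFac_prime (by nlinarith)
          rcases (Nat.Prime.dvd_mul hm).mp (Nat.minFac_dvd (p * q)) with h | h
          · exact ((Nat.prime_dvd_prime_iff_eq hm hp).mp h).ge
          · rw [(Nat.prime_dvd_prime_iff_eq hm hq).mp h]; exact hpq.le
        have hnp : ¬ (p * q).Prime := Nat.not_prime_mul hp.one_lt.ne' hq.one_lt.ne'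
        refine le_trans ?_ (term_ge (k := p * q) (by nlinarith) hnp)
        rw [hmf]
        have hp2 : (2 : ℝ) ≤ p := by exact_mod_cast h2
        have hq0 : (0 : ℝ) < q := by exact_mod_cast hq.pos
        have hqy' : (q : ℝ) ≤ y := by exact_mod_cast hqy
        have hy1 : (0 : ℝ) < y := by exact_mod_cast hy0
        push_cast
        rw [div_le_div_iff₀ (by positivity) (by positivity)]
        nlinarith [mul_le_mul_of_nonneg_left hqy' (by linarith : (0:ℝ) ≤ p)]
    _ = ∑ k ∈ (P.powersetCard 2).image (fun s : Finset ℕ => ∏ p ∈ s, p),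
          (1 - (g k : ℝ) / ((k : ℝ) - 1)) := by
        rw [sum_image hinj]
    _ ≤ ∑ k ∈ Icc 3 n, (1 - (g k : ℝ) / ((k : ℝ) - 1)) := by
        refine sum_le_sum_of_subset_of_nonneg hsubset fun k hk _ => ?_
        exact term_nonneg (mem_Icc.mp hk).1

/-- the tangent bound for the logarithm at `61` -/
theorem log_tangent {y : ℝ} (hy : 60 ≤ y) : Real.log (y + 1) ≤ 4.12 + (y - 60) / 61 := by
  have h1 : Real.log (y + 1) = Real.log 61 + Real.log ((y + 1) / 61) := by
    rw [← Real.log_mul (by norm_num) (by positivity)]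
    congr 1
    field_simp
  have h2 : Real.log ((y + 1) / 61) ≤ (y + 1) / 61 - 1 :=
    Real.log_le_sub_one_of_pos (by positivity)
  have h3 : Real.log 61 ≤ 4.12 := by
    have h4 : Real.log 61 = 6 * Real.log 2 + Real.log (61 / 64) := by
      rw [← Real.log_rpow (by norm_num), ← Real.log_mul (by norm_num) (by norm_num)]
      norm_num
    have h5 : Real.log (61 / 64 : ℝ) ≤ 61 / 64 - 1 := Real.log_le_sub_one_of_pos (by norm_num)
    have h6 := Real.log_two_lt_d9
    rw [h4]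
    linarith
  rw [h1]
  linarith

theorem choose_lower_big {y : ℕ} (hy : 60 ≤ y) :
    ((y : ℝ) + 1) / (12 * Real.log y ^ 2) ≤ ((Nat.primeCounting y).choose 2 : ℝ) / (2 * y) := by
  have hy' : (60 : ℝ) ≤ y := by exact_mod_cast hy
  have hlog : 0 < Real.log (y : ℝ) := Real.log_pos (by linarith)
  have hpi := Chebyshev.pi_ge y
  set L := Real.log (y : ℝ) with hL
  set P : ℝ := (Nat.primeCounting y : ℝ) with hP
  have h1 : (y : ℝ) * Real.log 2 - Real.log (y + 1) ≤ P * L := by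
    rwa [div_le_iff₀ hlog] at hpi
  have h2 := log_tangent hy'
  have h3 : L ≤ Real.log (y + 1) := Real.log_le_log (by linarith) (by linarith)
  have h4 := Real.log_two_gt_d9
  have hQ : 0.6931 * (y : ℝ) - (4.12 + (y - 60) / 61) ≤ P * L := by nlinarith
  have hR : 0.6931 * (y : ℝ) - 2 * (4.12 + (y - 60) / 61) ≤ (P - 1) * L := by
    have : (P - 1) * L = P * L - L := by ring
    rw [this]; linarith
  have hR0 : 0 ≤ 0.6931 * (y : ℝ) - 2 * (4.12 + (y - 60) / 61) := by linarith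
  have hQ0 : 0 ≤ 0.6931 * (y : ℝ) - (4.12 + (y - 60) / 61) := by linarith
  have h5 : (0.6931 * (y : ℝ) - (4.12 + (y - 60) / 61)) *
      (0.6931 * (y : ℝ) - 2 * (4.12 + (y - 60) / 61)) ≤ (P * L) * ((P - 1) * L) :=
    mul_le_mul hQ hR hR0 (hQ0.trans hQ)
  have h6 : (y : ℝ) * (y + 1) ≤ 3 * ((0.6931 * (y : ℝ) - (4.12 + (y - 60) / 61)) *
      (0.6931 * (y : ℝ) - 2 * (4.12 + (y - 60) / 61))) := by
    nlinarith
  have h8 : ((Nat.primeCounting y).choose 2 : ℝ) = P * (P - 1) / 2 := by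
    rw [Nat.cast_choose_two]
  rw [h8, div_div, div_le_div_iff₀ (by positivity) (by positivity)]
  nlinarith

theorem primeCounting_eq (y : ℕ) :
    Nat.primeCounting y = ((range (y + 1)).filter Nat.Prime).card := by
  rw [Nat.primeCounting, Nat.primeCounting', Nat.count_eq_card_filter_range]

theorem small_table : ∀ y ∈ Icc 15 59,
    10 * y * (y + 1) ≤ 437 * (((range (y + 1)).filter Nat.Prime).card).choose 2 := by
  decide +kernel

theorem choose_lower_small {y : ℕ} (h15 : 15 ≤ y) (h59 : y ≤ 59) :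
    ((y : ℝ) + 1) / (12 * Real.log y ^ 2) ≤ ((Nat.primeCounting y).choose 2 : ℝ) / (2 * y) := by
  have hy' : (15 : ℝ) ≤ y := by exact_mod_cast h15
  have h1 : (2.7 : ℝ) ≤ Real.log y := by
    have h2 : Real.log 15 ≤ Real.log y := Real.log_le_log (by norm_num) hy'
    have h3 : (2.7 : ℝ) ≤ Real.log 15 := by
      have h4 : Real.log 15 = 4 * Real.log 2 - Real.log (16 / 15) := by
        rw [← Real.log_rpow (by norm_num), ← Real.log_div (by norm_num) (by norm_num)]
        norm_num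
      have h5 : Real.log (16 / 15 : ℝ) ≤ 16 / 15 - 1 := Real.log_le_sub_one_of_pos (by norm_num)
      have h6 := Real.log_two_gt_d9
      rw [h4]; linarith
    linarith
  have h7 := small_table y (mem_Icc.mpr ⟨h15, h59⟩)
  rw [← primeCounting_eq] at h7
  have h8 : (10 : ℝ) * y * (y + 1) ≤ 437 * ((Nat.primeCounting y).choose 2 : ℝ) := by
    exact_mod_cast h7
  have h9 : (7.29 : ℝ) ≤ Real.log y ^ 2 := by nlinarith
  rw [div_le_div_iff₀ (by positivity) (by positivity)]
  nlinarith [mul_nonneg (Nat.cast_nonneg (α := ℝ) ((Nat.primeCounting y).choose 2))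
    (sub_nonneg.mpr h9)]

theorem choose_lower {y : ℕ} (hy : 15 ≤ y) :
    ((y : ℝ) + 1) / (12 * Real.log y ^ 2) ≤ ((Nat.primeCounting y).choose 2 : ℝ) / (2 * y) := by
  rcases Nat.lt_or_ge y 60 with h | h
  · exact choose_lower_small hy (by omega)
  · exact choose_lower_big h

/-- For all `n ≥ 225` the sum `S n` is at least `√n / (3 (log n) ^ 2)`. -/
theorem result : ∀ n : ℕ, 225 ≤ n → √(n : ℝ) / (3 * Real.log n ^ 2) ≤ S n := by
  intro n hn
  set y := Nat.sqrt n with hy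
  have h1 : y ^ 2 ≤ n := Nat.sqrt_le' n
  have h2 : n < (y + 1) ^ 2 := Nat.lt_succ_sqrt' n
  have h3 : 15 ≤ y := by
    rw [hy, Nat.le_sqrt']
    omega
  have hy' : (15 : ℝ) ≤ y := by exact_mod_cast h3
  have hlog : 0 < Real.log (y : ℝ) := Real.log_pos (by linarith)
  refine le_trans ?_ ((choose_lower h3).trans (S_ge_primes h1 (by omega)))
  have h4 : √(n : ℝ) ≤ (y : ℝ) + 1 := by
    rw [Real.sqrt_le_left (by positivity)]
    exact_mod_cast h2.le
  have h5 : 2 * Real.log (y : ℝ) ≤ Real.log (n : ℝ) := by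
    have : ((y : ℝ)) ^ 2 ≤ (n : ℝ) := by exact_mod_cast h1
    calc 2 * Real.log (y : ℝ) = Real.log ((y : ℝ) ^ 2) := by rw [Real.log_pow]; norm_num
      _ ≤ Real.log (n : ℝ) := Real.log_le_log (by positivity) this
  have h6 : 12 * Real.log (y : ℝ) ^ 2 ≤ 3 * Real.log (n : ℝ) ^ 2 := by nlinarith
  exact div_le_div₀ (by positivity) h4 (by positivity) h6

end Pool.Agent.Results.MP_30a0a7_nt.LowerBound
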